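import Pool.Agent.Zk16.P.C
import Pool.Agent.Results.MP_f2148a_nt.AlmostAllK

/-! Points with `x³ - y²` small: the count. -/

set_option autoImplicit false

open Finset

namespace Pool.Agent.Zk16.P

open Pool.Agent.W223.HZ

theorem hFIB : StmtFIB := by
  have hDET : StmtDET := Pool.Agent.W803.HZ.DET.t
  have hDPB : StmtDPB := Pool.Agent.W19.HZ.t hDET
  have hPAR : StmtPAR := Pool.Agent.W164.HZ.t
  have hVA2 : StmtVA2 := Pool.Agent.W131.HZ.VA2.t Pool.Agent.W12.HZ.C2R.t hDPB hPAR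
  have hVA1 : StmtVA1 := Pool.Agent.W591.HZ.t Pool.Agent.W12.HZ.C1R.t hDPB hPAR
  have hREL : StmtREL := Pool.Agent.W563.HZ.REL.t
  have hCLS : StmtCLS := Pool.Agent.W33.HZ.t Pool.Agent.W12.HZ.NCU.t Pool.Agent.W61.HZ.t hREL
  have hPPR : StmtPPR := Pool.Agent.W351.HZ.t Pool.Agent.W499.HZ.PRM.t
  have hCUB : StmtCUB := Pool.Agent.W462.HZ.t hCLS hPPR
  have hINA : StmtINA := Pool.Agent.W60.HZ.t
  have hIN2 : StmtIN2 := Pool.Agent.W303.HZ.IN2.t hVA2 hREL hCUB hINA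
  have hIN1 : StmtIN1 := Pool.Agent.W369.HZ.IN1.t hVA1 hREL hCUB hINA
  exact Pool.Agent.W284.HZFIB.t hIN2 hIN1

/-- **the count** of the integral points with `0 < |x³ - y²| ≤ K` and `x` in `[X, 4X]`,
`X ≥ 1000 K` -/
theorem small_k : ∃ C K₀ : ℝ, 1 ≤ C ∧ 1 ≤ K₀ ∧ ∀ K X : ℝ, K₀ ≤ K → 1000 * K ≤ X →
    Real.log X ≤ K ^ ((1 : ℝ) / 10000) → ∀ S : Finset (ℤ × ℤ),
    (∀ e ∈ S, X ≤ (e.1 : ℝ) ∧ (e.1 : ℝ) ≤ 4 * X ∧ 0 < e.2 ∧ e.1 ^ 3 ≠ e.2 ^ 2 ∧
      |(e.1 : ℝ) ^ 3 - (e.2 : ℝ) ^ 2| ≤ K) →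
    (S.card : ℝ) ≤ C * K ^ ((99 : ℝ) / 100) := by
  classical
  obtain ⟨C, R₀, hC, hR₀, h⟩ := pts Pool.Agent.W349.HZ.LAT.t Pool.Agent.W490.HZ.GD1.t
    Pool.Agent.W349.HZ.GD2.t hFIB
  refine ⟨2 * C, R₀ ^ 4, by linarith, one_le_pow₀ (by linarith), ?_⟩
  intro K X hK hX hlog S hS
  have hR40 : 0 < R₀ ^ 4 := by positivity
  have hK0 : 0 < K := by linarith
  set R := K ^ ((1 : ℝ) / 4) with hRd
  have hR4 : R ^ 4 = K := by
    rw [hRd, ← Real.rpow_natCast, ← Real.rpow_mul hK0.le]; norm_num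
  have hRR : R₀ ≤ R := by
    have h1 : R₀ ^ 4 ≤ R ^ 4 := by rw [hR4]; exact hK
    exact le_of_pow_le_pow_left₀ (by norm_num) (by positivity) h1
  have hR0 : 0 < R := by linarith
  have hX0 : 0 < X := by linarith
  have hsX : 0 < √X := Real.sqrt_pos.mpr hX0
  have hsX2 : √X ^ 2 = X := Real.sq_sqrt hX0.le
  have hb : 31 * R ^ 2 ≤ √X := by
    apply Real.le_sqrt_of_sq_le
    calc (31 * R ^ 2) ^ 2 = 961 * R ^ 4 := by ring
      _ = 961 * K := by rw [hR4]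
      _ ≤ X := by linarith
  have hV : 1 ≤ √X / R := by
    rw [le_div_iff₀ hR0]
    nlinarith
  obtain ⟨i, hi1, hi2⟩ := exists_nat_pow_near hV (one_lt_two : (1 : ℝ) < 2)
  have hi3 : √X / R < 2 * 2 ^ i := by rw [pow_succ] at hi2; linarith
  have h15 : 15 * R ≤ (2 : ℝ) ^ i := by
    rw [div_lt_iff₀ hR0] at hi3
    have h1 : 31 * R * R < 2 * 2 ^ i * R := by nlinarith
    have h2 := lt_of_mul_lt_mul_right h1 hR0.le
    linarith
  have hlog2 : ∀ m : ℕ, (2 : ℝ) ^ m ≤ 2 * 2 ^ i →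
      Real.log ((2 : ℝ) ^ m) ≤ (R / 8) ^ ((1 : ℝ) / 2500) := by
    intro m hm
    have h1 : (2 : ℝ) ^ m ≤ √X := by
      have h2 : (2 : ℝ) ^ i * R ≤ √X := by
        rw [le_div_iff₀ hR0] at hi1; exact hi1
      have h3 : (0 : ℝ) < 2 ^ i := by positivity
      nlinarith
    have h2 : Real.log ((2 : ℝ) ^ m) ≤ Real.log X / 2 := by
      calc Real.log ((2 : ℝ) ^ m) ≤ Real.log (√X) := Real.log_le_log (by positivity) h1
        _ = Real.log X / 2 := Real.log_sqrt hX0.le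
    have h3 : K ^ ((1 : ℝ) / 10000) = R ^ ((1 : ℝ) / 2500) := by
      rw [hRd, ← Real.rpow_mul hK0.le]; norm_num
    have h4 : R ^ ((1 : ℝ) / 2500) / 2 ≤ (R / 8) ^ ((1 : ℝ) / 2500) := by
      rw [Real.div_rpow hR0.le (by norm_num)]
      apply div_le_div_of_nonneg_left (by positivity) (by positivity)
      calc (8 : ℝ) ^ ((1 : ℝ) / 2500) ≤ (8 : ℝ) ^ ((1 : ℝ) / 3) :=
            Real.rpow_le_rpow_of_exponent_le (by norm_num) (by norm_num)
        _ = 2 := by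
            rw [show (8 : ℝ) = 2 ^ (3 : ℝ) by norm_num, ← Real.rpow_mul (by norm_num)]; norm_num
    rw [h3] at hlog
    linarith
  have key : ∀ e ∈ S, √X / R ≤ √(e.1 : ℝ) / R ∧ √(e.1 : ℝ) / R ≤ 2 * (√X / R) := by
    intro e he
    obtain ⟨g1, g2, -⟩ := hS e he
    have h1 : √(4 * X) = 2 * √X := by
      rw [Real.sqrt_mul (by norm_num), show (4 : ℝ) = 2 ^ 2 by norm_num,
        Real.sqrt_sq (by norm_num)]
    constructor
    · have := Real.sqrt_le_sqrt g1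
      gcongr
    · have h2 := Real.sqrt_le_sqrt g2
      rw [h1] at h2
      rw [← mul_div_assoc]
      gcongr
  set S1 := S.filter (fun e => √(e.1 : ℝ) / R < 2 * 2 ^ i) with hS1
  set S2 := S.filter (fun e => ¬ √(e.1 : ℝ) / R < 2 * 2 ^ i) with hS2
  have hsum : S.card = S1.card + S2.card := (card_filter_add_card_filter_not _).symm
  have e396 : R ^ ((3960 : ℝ) / 1000) = K ^ ((99 : ℝ) / 100) := by
    rw [hRd, ← Real.rpow_mul hK0.le]; norm_num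
  have k1 : (S1.card : ℝ) ≤ C * K ^ ((99 : ℝ) / 100) := by
    rw [← e396]
    apply h R i hRR h15 (hlog2 i (by have : (0:ℝ) < 2 ^ i := by positivity
                                     linarith)) S1
    intro e he
    obtain ⟨g0, g1⟩ := mem_filter.mp he
    obtain ⟨a1, a2, a3, a4, a5⟩ := hS e g0
    refine ⟨a3, a4, by rw [hR4]; exact a5, hi1.trans (key e g0).1, g1⟩
  have k2 : (S2.card : ℝ) ≤ C * K ^ ((99 : ℝ) / 100) := by
    rw [← e396]
    have h3 : (2 : ℝ) ^ (i + 1) = 2 * 2 ^ i := by rw [pow_succ]; ring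
    have h4 : (0 : ℝ) < 2 ^ i := by positivity
    apply h R (i + 1) hRR (by rw [h3]; linarith) (hlog2 (i + 1) (by rw [h3])) S2
    intro e he
    obtain ⟨g0, g1⟩ := mem_filter.mp he
    obtain ⟨a1, a2, a3, a4, a5⟩ := hS e g0
    push Not at g1
    refine ⟨a3, a4, by rw [hR4]; exact a5, by rw [h3]; exact g1, ?_⟩
    rw [h3]
    have := (key e g0).2
    linarith
  have h3 : (S.card : ℝ) = S1.card + S2.card := by exact_mod_cast hsum
  rw [h3]
  linarith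

end Pool.Agent.Zk16.P
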