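import Pool.Agent.R418.C5.C
import Pool.Agent.W762.HZ.RED

/-! Points with `x³ - y²` small: two points attached to the same cubic form up to a rational
translation. -/

set_option autoImplicit false

namespace Pool.Agent.Zk16.P

open Pool.Agent.R418.C5 Pool.Agent.W223.HZ

theorem V_key (c0 c1 c2 c3 u v : ℤ) :
    V 1 0 (-(c1 ^ 2 - c0 * c2)) (c0 ^ 2 * c3 - 3 * c0 * c1 * c2 + 2 * c1 ^ 3) u (c0 * v - c1 * u) =
      c0 ^ 2 * V c0 c1 c2 c3 u v := by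
  unfold V; ring

theorem Hs_key (c0 c1 c2 c3 u v : ℤ) :
    Hs 1 0 (-(c1 ^ 2 - c0 * c2)) (c0 ^ 2 * c3 - 3 * c0 * c1 * c2 + 2 * c1 ^ 3) u (c0 * v - c1 * u) =
      c0 ^ 2 * Hs c0 c1 c2 c3 u v := by
  unfold Hs; ring

theorem Js_key (c0 c1 c2 c3 u v : ℤ) :
    Js 1 0 (-(c1 ^ 2 - c0 * c2)) (c0 ^ 2 * c3 - 3 * c0 * c1 * c2 + 2 * c1 ^ 3) u (c0 * v - c1 * u) =
      c0 ^ 3 * Js c0 c1 c2 c3 u v := by
  unfold Js; ring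

/-- the separation of two points -/
theorem key_eq (R V0 : ℝ) (hR : 20 ≤ R) (hV : 20801 ≤ V0) (c0 H J : ℤ) (hc0 : c0 ≠ 0)
    (hc0R : |(c0 : ℝ)| ≤ 1600 * R) (x y u P x' y' u' P' : ℤ)
    (h1 : V 1 0 (-H) J u P = c0 ^ 2) (h2 : Hs 1 0 (-H) J u P = c0 ^ 2 * x)
    (h3 : Js 1 0 (-H) J u P = c0 ^ 3 * (2 * y))
    (h1' : V 1 0 (-H) J u' P' = c0 ^ 2) (h2' : Hs 1 0 (-H) J u' P' = c0 ^ 2 * x')
    (h3' : Js 1 0 (-H) J u' P' = c0 ^ 3 * (2 * y'))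
    (hx1 : (R * V0) ^ 2 ≤ x) (hx2 : (x : ℝ) ≤ 4 * (R * V0) ^ 2)
    (hx1' : (R * V0) ^ 2 ≤ x') (hx2' : (x' : ℝ) ≤ 4 * (R * V0) ^ 2)
    (hy : 0 < y) (hk : |(x : ℝ) ^ 3 - (y : ℝ) ^ 2| ≤ R ^ 4) (hu : 1 ≤ u) (hu' : 1 ≤ u')
    (hD : |((u * P' - P * u' : ℤ) : ℝ)| ≤ |(c0 : ℝ)| * V0 ^ 2 / 32) : x = x' ∧ y = y' := by
  have hR0 : 0 < R := by linarith
  have hV0 : 0 < V0 := by linarith
  have hRV : 0 < R * V0 := by positivity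
  have hc0r : (c0 : ℝ) ≠ 0 := by exact_mod_cast hc0
  have hc0p : 0 < |(c0 : ℝ)| := abs_pos.mpr hc0r
  set Dl : ℤ := u * P' - P * u' with hDl
  set Q : ℤ := Pl 1 0 (-H) J u P u' P' with hQ
  have I1 := pair1 1 0 (-H) J u P u' P'
  have I2 := pair2 1 0 (-H) J u P u' P'
  rw [← hDl, ← hQ, h1, h2, h3] at I1 I2
  rw [h1'] at I1
  rw [h2'] at I2
  set δ : ℝ := (Dl : ℝ) / c0 with hδ
  set Ph : ℝ := (Q : ℝ) / (c0 : ℝ) ^ 2 with hPh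
  have I1R : ((c0 : ℝ) ^ 2) ^ 2 * (c0 : ℝ) ^ 2 = (Q : ℝ) ^ 3 - 3 * ((c0 : ℝ) ^ 2 * x) * Q * Dl ^ 2 +
      (c0 : ℝ) ^ 3 * (2 * y) * Dl ^ 3 := by exact_mod_cast I1
  have I2R : ((c0 : ℝ) ^ 2) ^ 2 * ((c0 : ℝ) ^ 2 * x') = ((c0 : ℝ) ^ 2 * x) * (Q : ℝ) ^ 2 -
      (c0 : ℝ) ^ 3 * (2 * y) * Q * Dl + ((c0 : ℝ) ^ 2 * x) ^ 2 * Dl ^ 2 := by exact_mod_cast I2
  have J1 : (1 : ℝ) ^ 2 * 1 = Ph ^ 3 - 3 * x * Ph * δ ^ 2 + 2 * y * δ ^ 3 := by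
    rw [hPh, hδ]
    field_simp
    linear_combination I1R
  have J2 : (1 : ℝ) ^ 2 * x' = x * Ph ^ 2 - 2 * y * Ph * δ + x ^ 2 * δ ^ 2 := by
    rw [hPh, hδ]
    field_simp
    apply mul_left_cancel₀ (pow_ne_zero 2 hc0r)
    linear_combination I2R
  have hδ1 : |δ| ≤ V0 ^ 2 / 32 := by
    rw [hδ, abs_div, div_le_iff₀ hc0p]
    linarith
  have hX0 : (0 : ℝ) < (R * V0) ^ 2 := by positivity
  have hsX : √((R * V0) ^ 2) = R * V0 := Real.sqrt_sq hRV.le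
  have hA : R ^ 4 * δ ^ 2 ≤ ((R * V0) ^ 2) ^ 2 / 1000 := by
    calc R ^ 4 * δ ^ 2 = R ^ 4 * |δ| ^ 2 := by rw [sq_abs]
      _ ≤ R ^ 4 * (V0 ^ 2 / 32) ^ 2 := by gcongr
      _ = ((R * V0) ^ 2) ^ 2 / 1024 := by ring
      _ ≤ ((R * V0) ^ 2) ^ 2 / 1000 := by gcongr; norm_num
  have hB : R ^ 4 * (1 : ℝ) ^ 2 ≤ ((R * V0) ^ 2) ^ 3 / 1000 := by
    have e1 : ((R * V0) ^ 2) ^ 3 / 1000 = R ^ 4 * (R ^ 2 * V0 ^ 6 / 1000) := by ring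
    rw [e1]
    have h5 : (1 : ℝ) ≤ R ^ 2 := one_le_pow₀ (by linarith)
    have h6 : (1000 : ℝ) ≤ V0 ^ 6 := by
      calc (1000 : ℝ) ≤ V0 ^ 1 := by rw [pow_one]; linarith
        _ ≤ V0 ^ 6 := pow_le_pow_right₀ (by linarith) (by norm_num)
    have h7 : (1 : ℝ) ^ 2 ≤ R ^ 2 * V0 ^ 6 / 1000 := by
      rw [le_div_iff₀ (by norm_num)]
      nlinarith
    exact mul_le_mul_of_nonneg_left h7 (by positivity)
  obtain ⟨r1, -⟩ := pair_real ((R * V0) ^ 2) x x' y 1 1 1 Ph δ (R ^ 4) hX0 hx1 hx1' hx2' hx2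
    (by exact_mod_cast hy) one_pos le_rfl one_pos.le le_rfl (by simpa using hk) hA (by positivity)
    hB J1 J2
  rw [hsX] at r1
  have hD0 : Dl = 0 := by
    by_contra hne
    have h5 : (1 : ℝ) ≤ |(Dl : ℝ)| := by
      have : (1 : ℤ) ≤ |Dl| := Int.one_le_abs hne
      exact_mod_cast this
    have h6 : |(Dl : ℝ)| * (R * V0) ≤ 13 * |(c0 : ℝ)| := by
      have e : |(Dl : ℝ)| = |δ| * |(c0 : ℝ)| := by
        rw [hδ, abs_div]; field_simp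
      rw [e]
      nlinarith
    have h7 : R * V0 ≤ 13 * (1600 * R) := by
      calc R * V0 = 1 * (R * V0) := by ring
        _ ≤ |(Dl : ℝ)| * (R * V0) := by gcongr
        _ ≤ 13 * |(c0 : ℝ)| := h6
        _ ≤ 13 * (1600 * R) := by gcongr
    nlinarith
  have huu : u = u' := by
    have h5 : c0 ^ 2 * (u ^ 3 - u' ^ 3) = 0 := by
      have e1 : u ^ 3 * V 1 0 (-H) J u' P' - u' ^ 3 * V 1 0 (-H) J u P =
          Dl * (u ^ 2 * P' ^ 2 + u * u' * P * P' + u' ^ 2 * P ^ 2 - 3 * H * u ^ 2 * u' ^ 2) := by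
        rw [hDl]; unfold V; ring
      rw [h1, h1', hD0] at e1
      linear_combination e1
    have h6 : u ^ 3 - u' ^ 3 = 0 := (mul_eq_zero.mp h5).resolve_left (pow_ne_zero 2 hc0)
    have h7 : u ^ 3 = u' ^ 3 := by linarith
    exact (pow_left_inj₀ (by omega) (by omega) (by norm_num : (3 : ℕ) ≠ 0)).mp h7
  have hPP : P = P' := by
    have h5 : u * (P' - P) = 0 := by
      rw [hDl, ← huu] at hD0
      linarith
    have h6 : P' - P = 0 := (mul_eq_zero.mp h5).resolve_left (by omega)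
    omega
  rw [← huu, ← hPP] at h2' h3'
  constructor
  · rw [h2] at h2'
    exact mul_left_cancel₀ (pow_ne_zero 2 hc0) h2'
  · rw [h3] at h3'
    have := mul_left_cancel₀ (pow_ne_zero 3 hc0) h3'
    omega

/-- the data of a point -/
structure Dat (R V0 T : ℝ) (x y : ℤ) (c0 c1 c2 c3 u v : ℤ) : Prop where
  good : Good 200 R T V0 c0 c1 c2 c3 v (-u)
  chart : Chart2 200 R T V0 c0 c1 c2 v (-u) ∨ Chart1 200 R T V0 c1 c2 c3 v (-u)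
  hV : V c0 c1 c2 c3 u v = 1
  hH : Hs c0 c1 c2 c3 u v = x
  hJ : Js c0 c1 c2 c3 u v = 2 * y
  hu : 1 ≤ u
  a0 : c0 ≠ 0

/-- a vanishing first coefficient is impossible for large points -/
theorem no_zero (R : ℝ) (hR : 20 ≤ R) (x y u v : ℤ) (hne : x ^ 3 ≠ y ^ 2)
    (hk : |(x : ℝ) ^ 3 - (y : ℝ) ^ 2| ≤ R ^ 4) (hx : 3 * R ^ 4 ≤ (x : ℝ)) (hcop : IsCoprime u v)
    (hv : 1 ≤ v) (hu : |(u : ℝ) - √(x : ℝ) * v| * √(x : ℝ) ≤ R)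
    (h0 : u ^ 3 - 3 * x * u * v ^ 2 + 2 * y * v ^ 3 = 0) : False := by
  have hv1 : v = 1 := by
    have h1 : v ∣ u ^ 3 := ⟨3 * x * u * v - 2 * y * v ^ 2, by linear_combination h0⟩
    have h2 : v ∣ 1 := (hcop.symm.pow_right (n := 3)).dvd_of_dvd_mul_left (by simpa using h1)
    have := Int.le_of_dvd one_pos h2
    omega
  subst hv1
  have h4k : 4 * (x ^ 3 - y ^ 2) = (x - u ^ 2) ^ 2 * (4 * x - u ^ 2) := by
    linear_combination (-2 * y + u ^ 3 - 3 * x * u) * h0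
  have hne2 : x - u ^ 2 ≠ 0 := by
    intro h1
    rw [h1] at h4k
    apply hne
    have : 4 * (x ^ 3 - y ^ 2) = 0 := by rw [h4k]; ring
    omega
  have h1 : (1 : ℝ) ≤ ((x : ℝ) - u ^ 2) ^ 2 := by
    have : (1 : ℤ) ≤ (x - u ^ 2) ^ 2 := by
      have : 0 < (x - u ^ 2) ^ 2 := by positivity
      omega
    exact_mod_cast this
  have h4kR : 4 * ((x : ℝ) ^ 3 - y ^ 2) = (x - u ^ 2) ^ 2 * (4 * x - u ^ 2) := by
    exact_mod_cast h4k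
  have hR4 : (160000 : ℝ) ≤ R ^ 4 := by
    calc (160000 : ℝ) = 20 ^ 4 := by norm_num
      _ ≤ R ^ 4 := by gcongr
  have hx0 : (0 : ℝ) < x := by linarith
  set s := √(x : ℝ) with hs
  have hs0 : 0 < s := Real.sqrt_pos.mpr hx0
  have hss : s ^ 2 = x := Real.sq_sqrt hx0.le
  have hsR : R ≤ s := by
    apply Real.le_sqrt_of_sq_le
    have : R ^ 2 ≤ R ^ 4 := pow_le_pow_right₀ (by linarith) (by norm_num)
    linarith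
  have hus : |(u : ℝ) - s| ≤ 1 := by
    have h5 : |(u : ℝ) - s * (1 : ℤ)| * s ≤ 1 * s := by linarith
    have h6 := le_of_mul_le_mul_right h5 hs0
    simpa using h6
  obtain ⟨h7, h8⟩ := abs_le.mp hus
  have h9 : (u : ℝ) ^ 2 ≤ 2 * x := by
    rw [← hss]
    have : 20 ≤ s := by linarith
    have h10 : |(u : ℝ)| ≤ s + 1 := by
      rw [abs_le]; constructor <;> linarith
    have h11 : (u : ℝ) ^ 2 ≤ (s + 1) ^ 2 := by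
      rw [← sq_abs]; gcongr
    nlinarith
  have h12 : 2 * (x : ℝ) ≤ 4 * x - u ^ 2 := by linarith
  have h13 : 2 * (x : ℝ) ≤ (x - (u : ℝ) ^ 2) ^ 2 * (4 * x - u ^ 2) := by
    calc 2 * (x : ℝ) = 1 * (2 * x) := by ring
      _ ≤ _ := mul_le_mul h1 h12 (by positivity) (by positivity)
  rw [← h4kR] at h13
  have h14 := (abs_le.mp hk).2
  linarith

theorem exists_dat (hL : StmtLAT) (h1 : StmtGD1) (h2 : StmtGD2) (R : ℝ) (hR : 20 ≤ R) (i : ℕ)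
    (hi : R ≤ (2 : ℝ) ^ i)
    (x y : ℤ) (hy : 0 < y) (hne : x ^ 3 ≠ y ^ 2) (hk : |(x : ℝ) ^ 3 - (y : ℝ) ^ 2| ≤ R ^ 4)
    (hx : 3 * R ^ 4 ≤ (x : ℝ)) (hi1 : (2 : ℝ) ^ i ≤ √(x : ℝ) / R)
    (hi2 : √(x : ℝ) / R < 2 * 2 ^ i) :
    ∃ (j : ℕ) (c0 c1 c2 c3 u v : ℤ), Dat R (2 ^ i) (2 ^ j / 2) x y c0 c1 c2 c3 u v := by
  have hR0 : 0 < R := by linarith
  have hR4 : (0 : ℝ) < R ^ 4 := by positivity
  have hx0 : (0 : ℝ) < (x : ℝ) := by linarith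
  have hα0 : 0 < √(x : ℝ) := Real.sqrt_pos.mpr hx0
  have hα2 : √(x : ℝ) ^ 2 = (x : ℝ) := Real.sq_sqrt hx0.le
  have hV0 : (1 : ℝ) ≤ 2 ^ i := one_le_pow₀ (by norm_num)
  have hV : 1 ≤ √(x : ℝ) / R := by linarith
  obtain ⟨u₁, v₁, u₂, v₂, j, hdet, hv1, hu, hvV, hs1, hs2⟩ := hL (√(x : ℝ)) (√(x : ℝ) / R) hV
  have hT : (1 : ℝ) / 2 ≤ 2 ^ j / 2 := by
    have : (1 : ℝ) ≤ 2 ^ j := one_le_pow₀ (by norm_num)
    linarith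
  have ha : cA x y u₁ v₁ ≠ 0 := by
    intro ha
    have h3 : |(u₁ : ℝ) - √(x : ℝ) * v₁| * (√(x : ℝ) / R) ≤ 1 := hu
    rw [← mul_div_assoc, div_le_one hR0] at h3
    exact no_zero R hR x y u₁ v₁ hne hk hx ⟨v₂, -u₂, by linarith⟩ hv1 h3 ha
  have hkk : |((y ^ 2 - x ^ 3 : ℤ) : ℝ)| ≤ R ^ 4 := by
    push_cast
    rw [abs_sub_comm]
    exact hk
  have gg1 := h1 R (√(x : ℝ)) (√(x : ℝ) / R) (2 ^ i) (2 ^ j / 2) hR hα0 rfl hV0 hi1 hi2 hT x y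
    (y ^ 2 - x ^ 3) hα2 hy.le (by ring) hkk u₁ v₁ u₂ v₂ hdet hv1 hs1 hs2
  have gg2 := h2 R (√(x : ℝ)) (√(x : ℝ) / R) (2 ^ i) (2 ^ j / 2) hR hα0 rfl hV0 hi1 hi2 hT x y hα2
    u₁ v₁ u₂ v₂ hdet hv1 hs1 hs2
  have eA : ∀ u v : ℤ, cA x y u v = g0 1 0 (-x) (2 * y) u v := by
    intro u v; unfold cA g0; ring
  have eB : ∀ u v u' v' : ℤ, cB x y u v u' v' = g1 1 0 (-x) (2 * y) u v u' v' := by
    intro u v u' v'; unfold cB Pool.Agent.R418.C5.g1; ring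
  refine ⟨j, _, _, _, _, v₁, v₂, gg1.1, gg2, ?_, ?_, ?_, hv1, ha⟩
  · rw [eA, eA, eB, eB, V_g, hdet]; ring
  · rw [eA, eA, eB, eB, Hs_g, hdet]; ring
  · rw [eA, eA, eB, eB, Js_g, hdet]; ring

end Pool.Agent.Zk16.P
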