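import Pool.Agent.Zk16.P.A
import Pool.Agent.Zk16.Q.D

/-! Points with `x³ - y²` small: the count at one shape. -/

set_option autoImplicit false

open Finset

namespace Pool.Agent.Zk16.P

open Pool.Agent.H925R.Hall Pool.Agent.R418.C5 Pool.Agent.W223.HZ

/-- a family of points with their data -/
structure Fam (R V0 T : ℝ) (S : Finset (ℤ × ℤ)) (c0 c1 c2 c3 u v : ℤ × ℤ → ℤ) : Prop where
  hR : 20 ≤ R
  hV : 20801 ≤ V0
  hT : 1 / 2 ≤ T
  dat : ∀ e ∈ S, Dat R V0 T e.1 e.2 (c0 e) (c1 e) (c2 e) (c3 e) (u e) (v e)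
  x1 : ∀ e ∈ S, (R * V0) ^ 2 ≤ (e.1 : ℝ)
  x2 : ∀ e ∈ S, (e.1 : ℝ) ≤ 4 * (R * V0) ^ 2
  y0 : ∀ e ∈ S, 0 < e.2
  k : ∀ e ∈ S, |(e.1 : ℝ) ^ 3 - (e.2 : ℝ) ^ 2| ≤ R ^ 4

section
variable {R V0 T : ℝ} {S : Finset (ℤ × ℤ)} {c0 c1 c2 c3 u v : ℤ × ℤ → ℤ}

theorem Fam.mono (h : Fam R V0 T S c0 c1 c2 c3 u v) {S' : Finset (ℤ × ℤ)} (hs : S' ⊆ S) :
    Fam R V0 T S' c0 c1 c2 c3 u v :=
  ⟨h.hR, h.hV, h.hT, fun e he => h.dat e (hs he), fun e he => h.x1 e (hs he),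
    fun e he => h.x2 e (hs he), fun e he => h.y0 e (hs he), fun e he => h.k e (hs he)⟩

theorem Fam.bds (h : Fam R V0 T S c0 c1 c2 c3 u v) {e : ℤ × ℤ} (he : e ∈ S) :
    (1 : ℝ) ≤ |(c0 e : ℝ)| ∧ T ^ 3 ≤ 200 * R ∧ |(c0 e : ℝ)| ≤ 200 * R / T ^ 3 ∧
      |(c1 e : ℝ)| ≤ 200 * R / T ∧ |(c2 e : ℝ)| ≤ 200 * (R * T) ∧
      |(c3 e : ℝ)| ≤ 200 * (R * T ^ 3) ∧ |(v e : ℝ)| ≤ 200 * (T * V0) ∧
      |(u e : ℝ)| ≤ 200 * V0 / T := by
  have hd := h.dat e he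
  have hT0 : 0 < T := by linarith [h.hT]
  have h1 : (1 : ℝ) ≤ |(c0 e : ℝ)| := by
    have : (1 : ℤ) ≤ |c0 e| := Int.one_le_abs hd.a0
    exact_mod_cast this
  have hg := hd.good
  have h2 := hg.ha
  have h3 := hg.hb
  have h4 := hg.hq
  push_cast at h4
  rw [abs_neg] at h4
  refine ⟨h1, ?_, ?_, ?_, hg.hc, hg.hd, hg.hp, ?_⟩
  · calc T ^ 3 = 1 * T ^ 3 := by ring
      _ ≤ |(c0 e : ℝ)| * T ^ 3 := by gcongr
      _ ≤ 200 * R := h2
  · rw [le_div_iff₀ (by positivity)]; exact h2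
  · rw [le_div_iff₀ hT0]; exact h3
  · rw [le_div_iff₀ hT0]; exact h4

theorem Fam.inj (h : Fam R V0 T S c0 c1 c2 c3 u v) {e e' : ℤ × ℤ} (he : e ∈ S) (he' : e' ∈ S)
    (h0 : c0 e = c0 e') (hH : c1 e ^ 2 - c0 e * c2 e = c1 e' ^ 2 - c0 e' * c2 e')
    (hJ : c0 e ^ 2 * c3 e - 3 * c0 e * c1 e * c2 e + 2 * c1 e ^ 3 =
      c0 e' ^ 2 * c3 e' - 3 * c0 e' * c1 e' * c2 e' + 2 * c1 e' ^ 3)
    (hD : |((u e * (c0 e' * v e' - c1 e' * u e') - (c0 e * v e - c1 e * u e) * u e' : ℤ) : ℝ)| ≤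
      |(c0 e : ℝ)| * V0 ^ 2 / 32) : e = e' := by
  have hd := h.dat e he
  have hd' := h.dat e' he'
  obtain ⟨b1, b2, b3, -⟩ := h.bds he
  have hR := h.hR
  have hT := h.hT
  have hT0 : 0 < T := by linarith
  have hc : |(c0 e : ℝ)| ≤ 1600 * R := by
    refine b3.trans ?_
    rw [div_le_iff₀ (by positivity)]
    have : (1 / 2 : ℝ) ^ 3 ≤ T ^ 3 := by gcongr
    have : (1 : ℝ) / 8 ≤ T ^ 3 := by linarith
    nlinarith
  have k1 := V_key (c0 e) (c1 e) (c2 e) (c3 e) (u e) (v e)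
  have k2 := Hs_key (c0 e) (c1 e) (c2 e) (c3 e) (u e) (v e)
  have k3 := Js_key (c0 e) (c1 e) (c2 e) (c3 e) (u e) (v e)
  have k1' := V_key (c0 e') (c1 e') (c2 e') (c3 e') (u e') (v e')
  have k2' := Hs_key (c0 e') (c1 e') (c2 e') (c3 e') (u e') (v e')
  have k3' := Js_key (c0 e') (c1 e') (c2 e') (c3 e') (u e') (v e')
  rw [hd.hV, mul_one] at k1
  rw [hd.hH] at k2
  rw [hd.hJ] at k3
  rw [hd'.hV, mul_one, ← hJ, ← hH, ← h0] at k1'
  rw [hd'.hH, ← hJ, ← hH, ← h0] at k2'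
  rw [hd'.hJ, ← hJ, ← hH, ← h0] at k3'
  rw [← h0] at hD
  have := key_eq R V0 hR h.hV (c0 e) _ _ hd.a0 hc e.1 e.2 (u e) _ e'.1 e'.2 (u e') _ k1 k2 k3 k1'
    k2' k3' (h.x1 e he) (h.x2 e he) (h.x1 e' he') (h.x2 e' he') (h.y0 e he) (h.k e he) hd.hu hd'.hu
    hD
  exact Prod.ext this.1 this.2

/-- the bound of a floor -/
theorem abs_floor_le (x B : ℝ) (h : |x| ≤ B) : |((⌊x⌋ : ℤ) : ℝ)| ≤ B + 1 := by
  obtain ⟨h1, h2⟩ := abs_le.mp h
  have h3 := Int.floor_le x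
  have h4 := Int.lt_floor_add_one x
  rw [abs_le]
  constructor <;> linarith

theorem box_le (A B : ℝ) (hA : 1 / 2 ≤ A) (hB : 4 * A ≤ B) :
    ((Icc (-⌊A⌋) ⌊A⌋).card : ℝ) ≤ B :=
  (card_box A (by linarith)).trans (by linarith)

/-- large shapes -/
theorem caseL (h : Fam R V0 T S c0 c1 c2 c3 u v) :
    (S.card : ℝ) ≤ 10 ^ 38 * (R ^ 8 / T ^ 14) := by
  classical
  rcases S.eq_empty_or_nonempty with hS | ⟨e1, he1⟩
  · rw [hS]
    have := h.hR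
    have := h.hT
    simp only [card_empty, Nat.cast_zero]
    positivity
  obtain ⟨-, hT3, -⟩ := h.bds he1
  have hR := h.hR
  have hT := h.hT
  have hV := h.hV
  have hR0 : 0 < R := by linarith
  have hT0 : 0 < T := by linarith
  have hV0 : 0 < V0 := by linarith
  have hRT : T ≤ R := by
    by_contra hc
    push Not at hc
    have : R ^ 3 < T ^ 3 := by gcongr
    nlinarith [pow_pos hR0 2]
  have hρ : 1 ≤ 200 * (R / T ^ 3) := by
    rw [mul_div_assoc', le_div_iff₀ (by positivity)]; linarith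
  have hRT1 : 1 ≤ R / T := by rw [le_div_iff₀ hT0]; linarith
  set f : ℤ × ℤ → (ℤ × ℤ × ℤ) × ℤ × ℤ := fun e => ((c0 e, c1 e ^ 2 - c0 e * c2 e,
    c0 e ^ 2 * c3 e - 3 * c0 e * c1 e * c2 e + 2 * c1 e ^ 3),
    (⌊12800 * ((c0 e * v e - c1 e * u e : ℤ) : ℝ) / (|(c0 e : ℝ)| * T * V0)⌋,
      ⌊5120000 * R * (u e : ℝ) / (|(c0 e : ℝ)| * T ^ 2 * V0)⌋)) with hf
  have hP : ∀ e ∈ S, |((c0 e * v e - c1 e * u e : ℤ) : ℝ)| ≤ 80000 * R * V0 / T ^ 2 := by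
    intro e he
    obtain ⟨b1, b2, b3, b4, b5, b6, b7, b8⟩ := h.bds he
    push_cast
    calc |(c0 e : ℝ) * v e - c1 e * u e| ≤ |(c0 e : ℝ) * v e| + |(c1 e : ℝ) * u e| := abs_sub _ _
      _ = |(c0 e : ℝ)| * |(v e : ℝ)| + |(c1 e : ℝ)| * |(u e : ℝ)| := by rw [abs_mul, abs_mul]
      _ ≤ (200 * R / T ^ 3) * (200 * (T * V0)) + (200 * R / T) * (200 * V0 / T) := by gcongr
      _ = 80000 * R * V0 / T ^ 2 := by field_simp; ring
  have hinj : Set.InjOn f S := by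
    intro e he e' he' hee
    simp only [hf, Prod.mk.injEq] at hee
    obtain ⟨⟨g0, g1, g2⟩, g3, g4⟩ := hee
    obtain ⟨b1, b2, b3, b4, b5, b6, b7, b8⟩ := h.bds he
    have hc0 : 0 < |(c0 e : ℝ)| := by linarith
    rw [g0] at g1 g2
    refine h.inj he he' g0 (by rw [g0]; exact g1) (by rw [g0]; exact g2) ?_
    have p1 := hP e he
    have k3 := Int.abs_sub_lt_one_of_floor_eq_floor g3
    have k4 := Int.abs_sub_lt_one_of_floor_eq_floor g4
    rw [← g0] at k3 k4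
    rw [← g0]
    set P : ℝ := ((c0 e * v e - c1 e * u e : ℤ) : ℝ) with hPd
    set P' : ℝ := ((c0 e * v e' - c1 e' * u e' : ℤ) : ℝ) with hPd'
    have m3 : |P' - P| ≤ |(c0 e : ℝ)| * T * V0 / 12800 := by
      have e1 : 12800 * P / (|(c0 e : ℝ)| * T * V0) - 12800 * P' / (|(c0 e : ℝ)| * T * V0) =
          (P - P') * (12800 / (|(c0 e : ℝ)| * T * V0)) := by ring
      rw [e1, abs_mul, abs_of_pos (by positivity : 0 < 12800 / (|(c0 e : ℝ)| * T * V0)),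
        ← mul_div_assoc, div_lt_one (by positivity)] at k3
      rw [abs_sub_comm, le_div_iff₀ (by norm_num)]
      exact k3.le
    have m4 : |(u e : ℝ) - u e'| ≤ |(c0 e : ℝ)| * T ^ 2 * V0 / (5120000 * R) := by
      have e1 : 5120000 * R * (u e : ℝ) / (|(c0 e : ℝ)| * T ^ 2 * V0) -
          5120000 * R * (u e' : ℝ) / (|(c0 e : ℝ)| * T ^ 2 * V0) =
          (u e - u e') * (5120000 * R / (|(c0 e : ℝ)| * T ^ 2 * V0)) := by ring
      rw [e1, abs_mul, abs_of_pos (by positivity : 0 < 5120000 * R / (|(c0 e : ℝ)| * T ^ 2 * V0)),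
        ← mul_div_assoc, div_lt_one (by positivity)] at k4
      rw [le_div_iff₀ (by positivity)]
      exact k4.le
    have e2 : ((u e * (c0 e * v e' - c1 e' * u e') - (c0 e * v e - c1 e * u e) * u e' : ℤ) : ℝ) =
        (u e : ℝ) * (P' - P) + P * ((u e : ℝ) - u e') := by
      rw [hPd, hPd']; push_cast; ring
    rw [e2]
    calc |(u e : ℝ) * (P' - P) + P * ((u e : ℝ) - u e')| ≤
        |(u e : ℝ)| * |P' - P| + |P| * |(u e : ℝ) - u e'| := by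
          rw [← abs_mul, ← abs_mul]; exact abs_add_le _ _
      _ ≤ (200 * V0 / T) * (|(c0 e : ℝ)| * T * V0 / 12800) +
          (80000 * R * V0 / T ^ 2) * (|(c0 e : ℝ)| * T ^ 2 * V0 / (5120000 * R)) := by gcongr
      _ = |(c0 e : ℝ)| * V0 ^ 2 / 32 := by field_simp; ring
  set B0 := 200 * R / T ^ 3 with hB0
  set B1 := 80000 * (R / T) ^ 2 with hB1
  set B2 := 48000000 * (R / T) ^ 3 with hB2
  set B3 := 1024000000 * (R / T ^ 3) + 1 with hB3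
  have hsub : S.image f ⊆ ((Icc (-⌊B0⌋) ⌊B0⌋) ×ˢ (Icc (-⌊B1⌋) ⌊B1⌋) ×ˢ (Icc (-⌊B2⌋) ⌊B2⌋)) ×ˢ
      ((Icc (-⌊B3⌋) ⌊B3⌋) ×ˢ (Icc (-⌊B3⌋) ⌊B3⌋)) := by
    intro w hw
    obtain ⟨e, he, rfl⟩ := mem_image.mp hw
    obtain ⟨b1, b2, b3, b4, b5, b6, b7, b8⟩ := h.bds he
    have hc0 : 0 < |(c0 e : ℝ)| := by linarith
    rw [mem_product, mem_product, mem_product, mem_product]
    refine ⟨⟨mem_box b3, mem_box ?_, mem_box ?_⟩, mem_box ?_, mem_box ?_⟩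
    · simp only [hf]
      push_cast
      calc |(c1 e : ℝ) ^ 2 - c0 e * c2 e| ≤ |(c1 e : ℝ) ^ 2| + |(c0 e : ℝ) * c2 e| := abs_sub _ _
        _ = |(c1 e : ℝ)| ^ 2 + |(c0 e : ℝ)| * |(c2 e : ℝ)| := by rw [abs_mul, abs_pow]
        _ ≤ (200 * R / T) ^ 2 + (200 * R / T ^ 3) * (200 * (R * T)) := by gcongr
        _ = B1 := by rw [hB1]; field_simp; ring
    · simp only [hf]
      push_cast
      calc |(c0 e : ℝ) ^ 2 * c3 e - 3 * c0 e * c1 e * c2 e + 2 * (c1 e) ^ 3| ≤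
          |(c0 e : ℝ) ^ 2 * c3 e| + |3 * (c0 e : ℝ) * c1 e * c2 e| + |2 * (c1 e : ℝ) ^ 3| := by
            refine (abs_add_le _ _).trans ?_
            gcongr
            exact abs_sub _ _
        _ = |(c0 e : ℝ)| ^ 2 * |(c3 e : ℝ)| + 3 * |(c0 e : ℝ)| * |(c1 e : ℝ)| * |(c2 e : ℝ)| +
            2 * |(c1 e : ℝ)| ^ 3 := by
            rw [abs_mul, abs_mul, abs_mul, abs_mul, abs_mul, abs_pow, abs_pow]; norm_num
        _ ≤ (200 * R / T ^ 3) ^ 2 * (200 * (R * T ^ 3)) + 3 * (200 * R / T ^ 3) * (200 * R / T) *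
            (200 * (R * T)) + 2 * (200 * R / T) ^ 3 := by gcongr
        _ = B2 := by rw [hB2]; field_simp; ring
    · simp only [hf]
      apply abs_floor_le
      have hp := hP e he
      rw [abs_div, abs_mul, abs_of_pos (by norm_num : (0:ℝ) < 12800),
        abs_of_pos (by positivity : 0 < |(c0 e : ℝ)| * T * V0), div_le_iff₀ (by positivity)]
      calc 12800 * |((c0 e * v e - c1 e * u e : ℤ) : ℝ)| ≤ 12800 * (80000 * R * V0 / T ^ 2) := by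
            gcongr
        _ = 1024000000 * (R / T ^ 3) * (1 * T * V0) := by field_simp; ring
        _ ≤ 1024000000 * (R / T ^ 3) * (|(c0 e : ℝ)| * T * V0) := by gcongr
    · simp only [hf]
      apply abs_floor_le
      rw [abs_div, abs_mul, abs_of_pos (by positivity : (0:ℝ) < 5120000 * R),
        abs_of_pos (by positivity : 0 < |(c0 e : ℝ)| * T ^ 2 * V0), div_le_iff₀ (by positivity)]
      calc 5120000 * R * |(u e : ℝ)| ≤ 5120000 * R * (200 * V0 / T) := by gcongr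
        _ = 1024000000 * (R / T ^ 3) * (1 * T ^ 2 * V0) := by field_simp; ring
        _ ≤ 1024000000 * (R / T ^ 3) * (|(c0 e : ℝ)| * T ^ 2 * V0) := by gcongr
  have hcard := card_le_card hsub
  rw [card_image_of_injOn hinj, card_product, card_product, card_product, card_product] at hcard
  have h12 : 1 ≤ (R / T) ^ 2 := one_le_pow₀ hRT1
  have h13 : 1 ≤ (R / T) ^ 3 := one_le_pow₀ hRT1
  have hρ0 : 0 < R / T ^ 3 := by positivity
  have n0 : ((Icc (-⌊B0⌋) ⌊B0⌋).card : ℝ) ≤ 800 * (R / T ^ 3) := by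
    apply box_le
    · have : B0 = 200 * (R / T ^ 3) := by rw [hB0]; ring
      linarith
    · have : B0 = 200 * (R / T ^ 3) := by rw [hB0]; ring
      linarith
  have n1 : ((Icc (-⌊B1⌋) ⌊B1⌋).card : ℝ) ≤ 320000 * (R / T) ^ 2 :=
    box_le _ _ (by rw [hB1]; linarith) (by rw [hB1]; linarith)
  have n2 : ((Icc (-⌊B2⌋) ⌊B2⌋).card : ℝ) ≤ 192000000 * (R / T) ^ 3 :=
    box_le _ _ (by rw [hB2]; linarith) (by rw [hB2]; linarith)
  have n3 : ((Icc (-⌊B3⌋) ⌊B3⌋).card : ℝ) ≤ 4100000000 * (R / T ^ 3) :=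
    box_le _ _ (by rw [hB3]; linarith) (by rw [hB3]; linarith)
  have hcR : (S.card : ℝ) ≤ (((Icc (-⌊B0⌋) ⌊B0⌋).card : ℝ) * (((Icc (-⌊B1⌋) ⌊B1⌋).card : ℝ) *
      ((Icc (-⌊B2⌋) ⌊B2⌋).card : ℝ))) * (((Icc (-⌊B3⌋) ⌊B3⌋).card : ℝ) *
      ((Icc (-⌊B3⌋) ⌊B3⌋).card : ℝ)) := by exact_mod_cast hcard
  refine hcR.trans ?_
  calc (((Icc (-⌊B0⌋) ⌊B0⌋).card : ℝ) * (((Icc (-⌊B1⌋) ⌊B1⌋).card : ℝ) *
      ((Icc (-⌊B2⌋) ⌊B2⌋).card : ℝ))) * (((Icc (-⌊B3⌋) ⌊B3⌋).card : ℝ) *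
      ((Icc (-⌊B3⌋) ⌊B3⌋).card : ℝ)) ≤
      ((800 * (R / T ^ 3)) * ((320000 * (R / T) ^ 2) * (192000000 * (R / T) ^ 3))) *
      ((4100000000 * (R / T ^ 3)) * (4100000000 * (R / T ^ 3))) := by
        apply mul_le_mul _ _ (by positivity) (by positivity)
        · exact mul_le_mul n0 (mul_le_mul n1 n2 (by positivity) (by positivity))
            (by positivity) (by positivity)
        · exact mul_le_mul n3 n3 (by positivity) (by positivity)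
    _ = (800 * 320000 * 192000000 * 4100000000 * 4100000000) * (R ^ 8 / T ^ 14) := by
        field_simp
    _ ≤ 10 ^ 38 * (R ^ 8 / T ^ 14) := by
        apply mul_le_mul_of_nonneg_right (by norm_num)
        positivity

/-- the cells -/
noncomputable def cels : Finset (ℤ × ℤ) :=
  (Icc (-⌊(2560000 : ℝ) + 1⌋) ⌊(2560000 : ℝ) + 1⌋) ×ˢ
    (Icc (-⌊(2560000 : ℝ) + 1⌋) ⌊(2560000 : ℝ) + 1⌋)

theorem cels_card : (cels.card : ℝ) ≤ 3 * 10 ^ 13 := by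
  have h := card_box ((2560000 : ℝ) + 1) (by norm_num)
  unfold cels
  rw [card_product, Nat.cast_mul]
  calc _ ≤ (2 * ((2560000 : ℝ) + 1) + 1) * (2 * ((2560000 : ℝ) + 1) + 1) :=
        mul_le_mul h h (Nat.cast_nonneg _) (by norm_num)
    _ ≤ 3 * 10 ^ 13 := by norm_num

/-- the cell of the vector -/
noncomputable def cel (T V0 : ℝ) (u v : ℤ) : ℤ × ℤ :=
  (⌊12800 * ((v : ℝ) / (T * V0))⌋, ⌊12800 * ((u : ℝ) * T / V0)⌋)

theorem Fam.cel_mem (h : Fam R V0 T S c0 c1 c2 c3 u v) {e : ℤ × ℤ} (he : e ∈ S) :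
    cel T V0 (u e) (v e) ∈ cels := by
  obtain ⟨b1, b2, b3, b4, b5, b6, b7, b8⟩ := h.bds he
  have hR := h.hR
  have hT := h.hT
  have hV := h.hV
  have hR0 : 0 < R := by linarith
  have hT0 : 0 < T := by linarith
  have hV0 : 0 < V0 := by linarith
  have key : ∀ x : ℝ, |x| ≤ 2560000 →
      ⌊x⌋ ∈ Icc (-⌊(2560000 : ℝ) + 1⌋) ⌊(2560000 : ℝ) + 1⌋ :=
    fun x hx => mem_box (abs_floor_le x _ hx)
  unfold cels
  rw [mem_product]
  constructor
  · apply key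
    rw [abs_mul, abs_div, abs_of_pos (by positivity : 0 < T * V0),
      abs_of_pos (by norm_num : (0:ℝ) < 12800)]
    have : |(v e : ℝ)| / (T * V0) ≤ 200 := by
      rw [div_le_iff₀ (by positivity)]; exact b7
    linarith
  · apply key
    rw [abs_mul, abs_div, abs_mul, abs_of_pos hT0, abs_of_pos hV0,
      abs_of_pos (by norm_num : (0:ℝ) < 12800)]
    have : |(u e : ℝ)| * T / V0 ≤ 200 := by
      rw [div_le_iff₀ hV0]
      rw [le_div_iff₀ hT0] at b8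
      linarith
    linarith

theorem Fam.inj2 (h : Fam R V0 T S c0 c1 c2 c3 u v) {e e' : ℤ × ℤ} (he : e ∈ S) (he' : e' ∈ S)
    (h0 : c0 e = c0 e') (h1 : c1 e = c1 e') (h2 : c2 e = c2 e') (h3 : c3 e = c3 e')
    (hc : cel T V0 (u e) (v e) = cel T V0 (u e') (v e')) : e = e' := by
  obtain ⟨b1, b2, b3, b4, b5, b6, b7, b8⟩ := h.bds he
  have hR := h.hR
  have hT := h.hT
  have hV := h.hV
  have hR0 : 0 < R := by linarith
  have hT0 : 0 < T := by linarith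
  have hV0 : 0 < V0 := by linarith
  have hc0 : 0 < |(c0 e : ℝ)| := by linarith
  refine h.inj he he' h0 (by rw [h0, h1, h2]) (by rw [h0, h1, h2, h3]) ?_
  unfold cel at hc
  simp only [Prod.mk.injEq] at hc
  obtain ⟨g1, g2⟩ := hc
  have k1 := Int.abs_sub_lt_one_of_floor_eq_floor g1
  have k2 := Int.abs_sub_lt_one_of_floor_eq_floor g2
  have m1 : |(v e' : ℝ) - v e| ≤ T * V0 / 12800 := by
    have e1 : 12800 * ((v e : ℝ) / (T * V0)) - 12800 * ((v e' : ℝ) / (T * V0)) =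
        (v e - v e') * (12800 / (T * V0)) := by ring
    rw [e1, abs_mul, abs_of_pos (by positivity : 0 < 12800 / (T * V0)),
      ← mul_div_assoc, div_lt_one (by positivity)] at k1
    rw [abs_sub_comm, le_div_iff₀ (by norm_num)]
    exact k1.le
  have m2 : |(u e : ℝ) - u e'| ≤ V0 / (12800 * T) := by
    have e1 : 12800 * ((u e : ℝ) * T / V0) - 12800 * ((u e' : ℝ) * T / V0) =
        (u e - u e') * (12800 * T / V0) := by ring
    rw [e1, abs_mul, abs_of_pos (by positivity : 0 < 12800 * T / V0),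
      ← mul_div_assoc, div_lt_one (by positivity)] at k2
    rw [le_div_iff₀ (by positivity)]
    exact k2.le
  rw [← h0, ← h1]
  have e2 : ((u e * (c0 e * v e' - c1 e * u e') - (c0 e * v e - c1 e * u e) * u e' : ℤ) : ℝ) =
      (c0 e : ℝ) * ((u e : ℝ) * (v e' - v e) + v e * ((u e : ℝ) - u e')) := by
    push_cast; ring
  rw [e2, abs_mul, mul_div_assoc]
  apply mul_le_mul_of_nonneg_left _ hc0.le
  calc |(u e : ℝ) * (v e' - v e) + v e * ((u e : ℝ) - u e')| ≤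
      |(u e : ℝ)| * |(v e' : ℝ) - v e| + |(v e : ℝ)| * |(u e : ℝ) - u e'| := by
        rw [← abs_mul, ← abs_mul]; exact abs_add_le _ _
    _ ≤ (200 * V0 / T) * (T * V0 / 12800) + (200 * (T * V0)) * (V0 / (12800 * T)) := by gcongr
    _ = V0 ^ 2 / 32 := by field_simp; ring

/-- the common size facts -/
theorem Fam.sz (h : Fam R V0 T S c0 c1 c2 c3 u v) {e1 : ℤ × ℤ} (he1 : e1 ∈ S) :
    1 ≤ 200 * (R / T ^ 3) ∧ 1 ≤ R / T ∧ 1 ≤ R * T ∧ 1 ≤ R * T ^ 3 := by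
  obtain ⟨-, hT3, -⟩ := h.bds he1
  have hR := h.hR
  have hT := h.hT
  have hR0 : 0 < R := by linarith
  have hT0 : 0 < T := by linarith
  have hRT : T ≤ R := by
    by_contra hc
    push Not at hc
    have : R ^ 3 < T ^ 3 := by gcongr
    nlinarith [pow_pos hR0 2]
  have hT8 : (1 : ℝ) / 8 ≤ T ^ 3 := by
    calc (1 : ℝ) / 8 = (1 / 2) ^ 3 := by norm_num
      _ ≤ T ^ 3 := by gcongr
  refine ⟨?_, ?_, by nlinarith, by nlinarith⟩
  · rw [mul_div_assoc', le_div_iff₀ (by positivity)]; linarith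
  · rw [le_div_iff₀ hT0]; linarith

/-- first coefficient a cube -/
theorem caseC (h : Fam R V0 T S c0 c1 c2 c3 u v) (hcube : ∀ e ∈ S, ∃ f : ℤ, f ^ 3 = c0 e) :
    (S.card : ℝ) ≤ 10 ^ 25 * (R ^ ((10 : ℝ) / 3) * T ^ 2) := by
  classical
  rcases S.eq_empty_or_nonempty with hS | ⟨e1, he1⟩
  · rw [hS]
    have := h.hR
    have := h.hT
    simp only [card_empty, Nat.cast_zero]
    positivity
  obtain ⟨s1, s2, s3, s4⟩ := h.sz he1
  have hR := h.hR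
  have hT := h.hT
  have hV := h.hV
  have hR0 : 0 < R := by linarith
  have hT0 : 0 < T := by linarith
  choose! fc hfc using hcube
  set A := (200 * R) ^ ((1 : ℝ) / 3) / T with hA
  have hA3 : A ^ 3 = 200 * R / T ^ 3 := by
    rw [hA, div_pow, ← Real.rpow_natCast, ← Real.rpow_mul (by positivity)]
    norm_num
  have hA0 : 0 < A := by positivity
  have hA1 : 1 ≤ A := by
    by_contra hc
    push Not at hc
    have : A ^ 3 < 1 := pow_lt_one₀ hA0.le hc (by norm_num)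
    rw [hA3] at this
    have e : 200 * R / T ^ 3 = 200 * (R / T ^ 3) := by ring
    rw [e] at this
    linarith
  set f : ℤ × ℤ → (ℤ × ℤ × ℤ × ℤ) × (ℤ × ℤ) := fun e =>
    ((fc e, c1 e, c2 e, c3 e), cel T V0 (u e) (v e)) with hf
  have hinj : Set.InjOn f S := by
    intro e he e' he' hee
    simp only [hf, Prod.mk.injEq] at hee
    obtain ⟨⟨g0, g1, g2, g3⟩, g4⟩ := hee
    exact h.inj2 he he' (by rw [← hfc e he, ← hfc e' he', g0]) g1 g2 g3 g4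
  set B1 := 200 * R / T with hB1
  set B2 := 200 * (R * T) with hB2
  set B3 := 200 * (R * T ^ 3) with hB3
  have hsub : S.image f ⊆ ((Icc (-⌊A⌋) ⌊A⌋) ×ˢ (Icc (-⌊B1⌋) ⌊B1⌋) ×ˢ (Icc (-⌊B2⌋) ⌊B2⌋) ×ˢ
      (Icc (-⌊B3⌋) ⌊B3⌋)) ×ˢ cels := by
    intro w hw
    obtain ⟨e, he, rfl⟩ := mem_image.mp hw
    obtain ⟨b1, b2, b3, b4, b5, b6, b7, b8⟩ := h.bds he
    rw [mem_product, mem_product, mem_product, mem_product]
    refine ⟨⟨mem_box ?_, mem_box b4, mem_box b5, mem_box b6⟩, h.cel_mem he⟩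
    simp only [hf]
    have h5 : |(fc e : ℝ)| ^ 3 ≤ A ^ 3 := by
      rw [hA3, ← abs_pow]
      have : ((fc e : ℝ)) ^ 3 = (c0 e : ℝ) := by exact_mod_cast hfc e he
      rw [this]
      exact b3
    exact le_of_pow_le_pow_left₀ (by norm_num) hA0.le h5
  have hcard := card_le_card hsub
  rw [card_image_of_injOn hinj, card_product, card_product, card_product, card_product] at hcard
  have n0 : ((Icc (-⌊A⌋) ⌊A⌋).card : ℝ) ≤ 4 * A := box_le _ _ (by linarith) le_rfl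
  have n1 : ((Icc (-⌊B1⌋) ⌊B1⌋).card : ℝ) ≤ 800 * (R / T) := by
    have e : B1 = 200 * (R / T) := by rw [hB1]; ring
    exact box_le _ _ (by linarith) (by linarith)
  have n2 : ((Icc (-⌊B2⌋) ⌊B2⌋).card : ℝ) ≤ 800 * (R * T) :=
    box_le _ _ (by rw [hB2]; linarith) (by rw [hB2]; linarith)
  have n3 : ((Icc (-⌊B3⌋) ⌊B3⌋).card : ℝ) ≤ 800 * (R * T ^ 3) :=
    box_le _ _ (by rw [hB3]; linarith) (by rw [hB3]; linarith)
  have n4 := cels_card
  have hcR : (S.card : ℝ) ≤ (((Icc (-⌊A⌋) ⌊A⌋).card : ℝ) * (((Icc (-⌊B1⌋) ⌊B1⌋).card : ℝ) *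
      (((Icc (-⌊B2⌋) ⌊B2⌋).card : ℝ) * ((Icc (-⌊B3⌋) ⌊B3⌋).card : ℝ)))) * (cels.card : ℝ) := by
    exact_mod_cast hcard
  have hA2 : A ≤ 6 * R ^ ((1 : ℝ) / 3) / T := by
    rw [hA, Real.mul_rpow (by norm_num) hR0.le]
    have : (200 : ℝ) ^ ((1 : ℝ) / 3) ≤ 6 := by
      calc (200 : ℝ) ^ ((1 : ℝ) / 3) ≤ (216 : ℝ) ^ ((1 : ℝ) / 3) :=
            Real.rpow_le_rpow (by norm_num) (by norm_num) (by norm_num)
        _ = 6 := by
            rw [show (216 : ℝ) = 6 ^ (3 : ℝ) by norm_num, ← Real.rpow_mul (by norm_num)]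
            norm_num
    gcongr
  refine hcR.trans ?_
  calc (((Icc (-⌊A⌋) ⌊A⌋).card : ℝ) * (((Icc (-⌊B1⌋) ⌊B1⌋).card : ℝ) *
      (((Icc (-⌊B2⌋) ⌊B2⌋).card : ℝ) * ((Icc (-⌊B3⌋) ⌊B3⌋).card : ℝ)))) * (cels.card : ℝ) ≤
      ((4 * A) * ((800 * (R / T)) * ((800 * (R * T)) * (800 * (R * T ^ 3))))) * (3 * 10 ^ 13) := by
        apply mul_le_mul _ n4 (by positivity) (by positivity)
        exact mul4 (by positivity) (by positivity) (by positivity) (by positivity) n0 n1 n2 n3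
    _ ≤ ((4 * (6 * R ^ ((1 : ℝ) / 3) / T)) * ((800 * (R / T)) * ((800 * (R * T)) *
        (800 * (R * T ^ 3))))) * (3 * 10 ^ 13) := by gcongr
    _ = (24 * 800 ^ 3 * (3 * 10 ^ 13)) * ((R ^ ((1 : ℝ) / 3) * R ^ (3 : ℝ)) * T ^ 2) := by
        rw [show R ^ (3 : ℝ) = R ^ 3 by norm_cast]
        field_simp
        norm_num
    _ = (24 * 800 ^ 3 * (3 * 10 ^ 13)) * (R ^ ((10 : ℝ) / 3) * T ^ 2) := by
        rw [← Real.rpow_add hR0]; norm_num
    _ ≤ 10 ^ 25 * (R ^ ((10 : ℝ) / 3) * T ^ 2) := by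
        apply mul_le_mul_of_nonneg_right (by norm_num)
        positivity

/-- first coefficient not a cube -/
theorem caseN (h : Fam R V0 T S c0 c1 c2 c3 u v) (hcube : ∀ e ∈ S, ∀ f : ℤ, f ^ 3 ≠ c0 e)
    (E : ℝ) (hE : 0 ≤ E) (hfib : ∀ (a b c : ℤ) (𝒟 : Finset ℤ), a ≠ 0 → (∀ e : ℤ, e ^ 3 ≠ a) →
      (∀ d ∈ 𝒟, ∃ p q : ℤ, Good 200 R T V0 a b c d p q ∧
        (Chart2 200 R T V0 a b c p q ∨ Chart1 200 R T V0 b c d p q)) → (𝒟.card : ℝ) ≤ E) :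
    (S.card : ℝ) ≤ 10 ^ 25 * (R ^ 3 / T ^ 3 * E) := by
  classical
  rcases S.eq_empty_or_nonempty with hS | ⟨e1, he1⟩
  · rw [hS]
    have := h.hR
    have := h.hT
    simp only [card_empty, Nat.cast_zero]
    positivity
  obtain ⟨s1, s2, s3, s4⟩ := h.sz he1
  have hR := h.hR
  have hT := h.hT
  have hV := h.hV
  have hR0 : 0 < R := by linarith
  have hT0 : 0 < T := by linarith
  set B0 := 200 * R / T ^ 3 with hB0
  set B1 := 200 * R / T with hB1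
  set B2 := 200 * (R * T) with hB2
  have n0 : ((Icc (-⌊B0⌋) ⌊B0⌋).card : ℝ) ≤ 800 * (R / T ^ 3) := by
    have e : B0 = 200 * (R / T ^ 3) := by rw [hB0]; ring
    exact box_le _ _ (by linarith) (by linarith)
  have n1 : ((Icc (-⌊B1⌋) ⌊B1⌋).card : ℝ) ≤ 800 * (R / T) := by
    have e : B1 = 200 * (R / T) := by rw [hB1]; ring
    exact box_le _ _ (by linarith) (by linarith)
  have n2 : ((Icc (-⌊B2⌋) ⌊B2⌋).card : ℝ) ≤ 800 * (R * T) :=
    box_le _ _ (by rw [hB2]; linarith) (by rw [hB2]; linarith)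
  have key := Pool.Agent.Zk16.Q.card_le_of_fib S (fun e => (c0 e, c1 e, c2 e))
    (E * (3 * 10 ^ 13)) (512000000 * (R ^ 3 / T ^ 3)) (by positivity) ?_ ?_
  · refine key.trans (le_of_le_of_eq ?_ (rfl : (10 : ℝ) ^ 25 * (R ^ 3 / T ^ 3 * E) = _))
    have h0 : 0 ≤ R ^ 3 / T ^ 3 * E := by positivity
    calc 512000000 * (R ^ 3 / T ^ 3) * (E * (3 * 10 ^ 13)) =
        (512000000 * (3 * 10 ^ 13)) * (R ^ 3 / T ^ 3 * E) := by ring
      _ ≤ 10 ^ 25 * (R ^ 3 / T ^ 3 * E) := mul_le_mul_of_nonneg_right (by norm_num) h0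
  · intro e0 he0
    set U := S.filter (fun e => (c0 e, c1 e, c2 e) = (c0 e0, c1 e0, c2 e0)) with hU
    have hUm : ∀ e ∈ U, e ∈ S ∧ c0 e = c0 e0 ∧ c1 e = c1 e0 ∧ c2 e = c2 e0 := by
      intro e he
      obtain ⟨h1, h2⟩ := mem_filter.mp he
      simp only [Prod.mk.injEq] at h2
      exact ⟨h1, h2⟩
    set D := U.image c3 with hDdef
    have hD : (D.card : ℝ) ≤ E := by
      apply hfib (c0 e0) (c1 e0) (c2 e0) D (h.dat e0 he0).a0 (hcube e0 he0)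
      intro d hd
      obtain ⟨e, he, rfl⟩ := mem_image.mp hd
      obtain ⟨g0, g1, g2, g3⟩ := hUm e he
      have hde := h.dat e g0
      rw [← g1, ← g2, ← g3]
      exact ⟨_, _, hde.good, hde.chart⟩
    have hinj : Set.InjOn (fun e => (c3 e, cel T V0 (u e) (v e))) U := by
      intro e he e' he' hee
      simp only [Prod.mk.injEq] at hee
      obtain ⟨g0, g1, g2, g3⟩ := hUm e he
      obtain ⟨g0', g1', g2', g3'⟩ := hUm e' he'
      exact h.inj2 g0 g0' (by rw [g1, g1']) (by rw [g2, g2']) (by rw [g3, g3']) hee.1 hee.2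
    have hsub : U.image (fun e => (c3 e, cel T V0 (u e) (v e))) ⊆ D ×ˢ cels := by
      intro w hw
      obtain ⟨e, he, rfl⟩ := mem_image.mp hw
      rw [mem_product]
      exact ⟨mem_image_of_mem _ he, h.cel_mem (hUm e he).1⟩
    have hcard := card_le_card hsub
    rw [card_image_of_injOn hinj, card_product] at hcard
    calc (U.card : ℝ) ≤ (D.card : ℝ) * (cels.card : ℝ) := by exact_mod_cast hcard
      _ ≤ E * (3 * 10 ^ 13) := mul_le_mul hD cels_card (Nat.cast_nonneg _) hE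
  · have hsub : S.image (fun e => (c0 e, c1 e, c2 e)) ⊆ (Icc (-⌊B0⌋) ⌊B0⌋) ×ˢ
        (Icc (-⌊B1⌋) ⌊B1⌋) ×ˢ (Icc (-⌊B2⌋) ⌊B2⌋) := by
      intro w hw
      obtain ⟨e, he, rfl⟩ := mem_image.mp hw
      obtain ⟨b1, b2, b3, b4, b5, b6, b7, b8⟩ := h.bds he
      rw [mem_product, mem_product]
      exact ⟨mem_box b3, mem_box b4, mem_box b5⟩
    have hcard := card_le_card hsub
    rw [card_product, card_product] at hcard
    calc ((S.image (fun e => (c0 e, c1 e, c2 e))).card : ℝ) ≤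
        ((Icc (-⌊B0⌋) ⌊B0⌋).card : ℝ) * (((Icc (-⌊B1⌋) ⌊B1⌋).card : ℝ) *
          ((Icc (-⌊B2⌋) ⌊B2⌋).card : ℝ)) := by exact_mod_cast hcard
      _ ≤ (800 * (R / T ^ 3)) * ((800 * (R / T)) * (800 * (R * T))) :=
          mul_le_mul n0 (mul_le_mul n1 n2 (Nat.cast_nonneg _) (by positivity)) (by positivity)
            (by positivity)
      _ = 512000000 * (R ^ 3 / T ^ 3) := by field_simp; ring

end

end Pool.Agent.Zk16.P
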