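import Pool.Agent.Zk16.P.B

/-! Points with `x³ - y²` small: the count in a dyadic range. -/

set_option autoImplicit false

open Finset

namespace Pool.Agent.Zk16.P

open Pool.Agent.H925R.Hall Pool.Agent.R418.C5 Pool.Agent.W223.HZ

section
variable {R V0 T : ℝ} {S : Finset (ℤ × ℤ)} {c0 c1 c2 c3 u v : ℤ × ℤ → ℤ}

/-- one shape -/
theorem shape (S₀ : ℝ) (hS₀ : 1 ≤ S₀) (hFIB : ∀ (R T V : ℝ) (a b c : ℤ) (𝒟 : Finset ℤ), a ≠ 0 →
      (∀ e : ℤ, e ^ 3 ≠ a) → 20 ≤ R → 1 / 2 ≤ T → S₀ ≤ R * T ^ 3 →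
      (R * T ^ 3) ^ ((1 : ℝ) / 2) ≤ V → Real.log V ≤ (R * T ^ 3) ^ ((1 : ℝ) / 2500) →
      (∀ d ∈ 𝒟, ∃ p q : ℤ, Good 200 R T V a b c d p q ∧
        (Chart2 200 R T V a b c p q ∨ Chart1 200 R T V b c d p q)) →
      (𝒟.card : ℝ) ≤ (R * T ^ 3) ^ (1 - (1 : ℝ) / 22 + 1 / 300))
    (hR8 : 8 * S₀ ≤ R) (hVR : 15 * R ≤ V0) (hlog : Real.log V0 ≤ (R / 8) ^ ((1 : ℝ) / 2500))
    (h : Fam R V0 T S c0 c1 c2 c3 u v) :
    (S.card : ℝ) ≤ 10 ^ 39 * R ^ ((3959 : ℝ) / 1000) := by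
  classical
  rcases S.eq_empty_or_nonempty with hS | ⟨e1, he1⟩
  · rw [hS]
    have := h.hR
    simp only [card_empty, Nat.cast_zero]
    positivity
  obtain ⟨s1, s2, s3, s4⟩ := h.sz he1
  obtain ⟨-, hT3, -⟩ := h.bds he1
  have hR := h.hR
  have hT := h.hT
  have hV := h.hV
  have hR0 : 0 < R := by linarith
  have hR1 : 1 ≤ R := by linarith
  have hT0 : 0 < T := by linarith
  have hT8 : (1 : ℝ) / 8 ≤ T ^ 3 := by
    calc (1 : ℝ) / 8 = (1 / 2) ^ 3 := by norm_num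
      _ ≤ T ^ 3 := by gcongr
  rcases le_total (R ^ ((29 : ℝ) / 100)) T with hc | hc
  · refine (caseL h).trans ?_
    have h1 : R ^ ((406 : ℝ) / 100) ≤ T ^ 14 := by
      calc R ^ ((406 : ℝ) / 100) = (R ^ ((29 : ℝ) / 100)) ^ 14 := by
            rw [← Real.rpow_natCast, ← Real.rpow_mul hR0.le]; norm_num
        _ ≤ T ^ 14 := by gcongr
    have h2 : R ^ 8 / T ^ 14 ≤ R ^ ((3959 : ℝ) / 1000) := by
      rw [div_le_iff₀ (by positivity)]
      calc R ^ 8 = R ^ ((394 : ℝ) / 100) * R ^ ((406 : ℝ) / 100) := by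
            rw [← Real.rpow_add hR0, ← Real.rpow_natCast]; norm_num
        _ ≤ R ^ ((3959 : ℝ) / 1000) * T ^ 14 := by
            apply mul_le_mul _ h1 (by positivity) (by positivity)
            exact Real.rpow_le_rpow_of_exponent_le hR1 (by norm_num)
    calc (10 : ℝ) ^ 38 * (R ^ 8 / T ^ 14) ≤ 10 ^ 38 * R ^ ((3959 : ℝ) / 1000) := by gcongr
      _ ≤ 10 ^ 39 * R ^ ((3959 : ℝ) / 1000) :=
          mul_le_mul_of_nonneg_right (by norm_num) (by positivity)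
  · set S1 := S.filter (fun e => ∃ f : ℤ, f ^ 3 = c0 e) with hS1
    set S2 := S.filter (fun e => ¬ ∃ f : ℤ, f ^ 3 = c0 e) with hS2
    have hsum : S.card = S1.card + S2.card := (card_filter_add_card_filter_not _).symm
    have k1 : (S1.card : ℝ) ≤ 10 ^ 25 * R ^ ((3959 : ℝ) / 1000) := by
      refine (caseC (h.mono (filter_subset _ _)) (fun e he => (mem_filter.mp he).2)).trans ?_
      have h1 : T ^ 2 ≤ R ^ ((58 : ℝ) / 100) := by
        calc T ^ 2 ≤ (R ^ ((29 : ℝ) / 100)) ^ 2 := by gcongr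
          _ = R ^ ((58 : ℝ) / 100) := by
            rw [← Real.rpow_natCast, ← Real.rpow_mul hR0.le]; norm_num
      have h2 : R ^ ((10 : ℝ) / 3) * T ^ 2 ≤ R ^ ((3959 : ℝ) / 1000) := by
        calc R ^ ((10 : ℝ) / 3) * T ^ 2 ≤ R ^ ((10 : ℝ) / 3) * R ^ ((58 : ℝ) / 100) := by gcongr
          _ = R ^ ((10 : ℝ) / 3 + 58 / 100) := (Real.rpow_add hR0 _ _).symm
          _ ≤ R ^ ((3959 : ℝ) / 1000) := Real.rpow_le_rpow_of_exponent_le hR1 (by norm_num)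
      gcongr
    have k2 : (S2.card : ℝ) ≤ 10 ^ 26 * R ^ ((3959 : ℝ) / 1000) := by
      set E := (R * T ^ 3) ^ (1 - (1 : ℝ) / 22 + 1 / 300) with hE
      have hRT0 : 0 < R * T ^ 3 := by positivity
      have hRT8 : R / 8 ≤ R * T ^ 3 := by nlinarith
      have hE0 : 0 ≤ E := by positivity
      have hcu2 : ∀ e ∈ S2, ∀ f : ℤ, f ^ 3 ≠ c0 e := by
        intro e he f hf
        exact (mem_filter.mp he).2 ⟨f, hf⟩
      refine (caseN (S := S2) (h.mono (filter_subset _ _)) hcu2 E hE0 ?_).trans ?_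
      · intro a b c 𝒟 ha hcu hD
        apply hFIB R T V0 a b c 𝒟 ha hcu hR hT (by linarith) ?_ ?_ hD
        · have h1 : R * T ^ 3 ≤ (15 * R) ^ 2 := by nlinarith
          calc (R * T ^ 3) ^ ((1 : ℝ) / 2) ≤ ((15 * R) ^ 2) ^ ((1 : ℝ) / 2) :=
                Real.rpow_le_rpow hRT0.le h1 (by norm_num)
            _ = 15 * R := by
                rw [← Real.rpow_natCast, ← Real.rpow_mul (by positivity)]; norm_num
            _ ≤ V0 := hVR
        · exact hlog.trans (Real.rpow_le_rpow (by positivity) hRT8 (by norm_num))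
      · have h1 : R ^ 3 / T ^ 3 * E = R ^ (4 : ℝ) * (R * T ^ 3) ^ (-(1 : ℝ) / 22 + 1 / 300) := by
          have e1 : R ^ 3 / T ^ 3 = R ^ (4 : ℝ) * (R * T ^ 3) ^ (-(1 : ℝ)) := by
            rw [Real.rpow_neg_one, show R ^ (4 : ℝ) = R ^ 4 by norm_cast]
            field_simp
          rw [e1, hE, mul_assoc, ← Real.rpow_add hRT0]
          congr 2
          ring
        have h2 : (R * T ^ 3) ^ (-(1 : ℝ) / 22 + 1 / 300) ≤ (R / 8) ^ (-(1 : ℝ) / 22 + 1 / 300) :=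
          Real.rpow_le_rpow_of_nonpos (by positivity) hRT8 (by norm_num)
        have h3 : (R / 8) ^ (-(1 : ℝ) / 22 + 1 / 300) ≤ 8 * R ^ (-(1 : ℝ) / 22 + 1 / 300) := by
          rw [Real.div_rpow hR0.le (by norm_num), div_eq_mul_inv, ← Real.rpow_neg (by norm_num),
            mul_comm]
          gcongr
          calc (8 : ℝ) ^ (-(-(1 : ℝ) / 22 + 1 / 300)) ≤ (8 : ℝ) ^ (1 : ℝ) :=
                Real.rpow_le_rpow_of_exponent_le (by norm_num) (by norm_num)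
            _ = 8 := Real.rpow_one 8
        rw [h1]
        calc (10 : ℝ) ^ 25 * (R ^ (4 : ℝ) * (R * T ^ 3) ^ (-(1 : ℝ) / 22 + 1 / 300)) ≤
            10 ^ 25 * (R ^ (4 : ℝ) * (8 * R ^ (-(1 : ℝ) / 22 + 1 / 300))) := by
              have := h2.trans h3
              gcongr
          _ = (8 * 10 ^ 25) * (R ^ (4 : ℝ) * R ^ (-(1 : ℝ) / 22 + 1 / 300)) := by ring
          _ = (8 * 10 ^ 25) * R ^ (4 + (-(1 : ℝ) / 22 + 1 / 300)) := by
              rw [← Real.rpow_add hR0]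
          _ ≤ (8 * 10 ^ 25) * R ^ ((3959 : ℝ) / 1000) := by
              apply mul_le_mul_of_nonneg_left _ (by norm_num)
              exact Real.rpow_le_rpow_of_exponent_le hR1 (by norm_num)
          _ ≤ 10 ^ 26 * R ^ ((3959 : ℝ) / 1000) :=
              mul_le_mul_of_nonneg_right (by norm_num) (by positivity)
    have h3 : (S.card : ℝ) = S1.card + S2.card := by exact_mod_cast hsum
    rw [h3]
    have h4 : 0 ≤ R ^ ((3959 : ℝ) / 1000) := by positivity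
    calc (S1.card : ℝ) + S2.card ≤ 10 ^ 25 * R ^ ((3959 : ℝ) / 1000) +
        10 ^ 26 * R ^ ((3959 : ℝ) / 1000) := add_le_add k1 k2
      _ = (10 ^ 25 + 10 ^ 26) * R ^ ((3959 : ℝ) / 1000) := by ring
      _ ≤ 10 ^ 39 * R ^ ((3959 : ℝ) / 1000) := mul_le_mul_of_nonneg_right (by norm_num) h4

end

/-- the points in a dyadic range -/
theorem pts (hL : StmtLAT) (h1 : StmtGD1) (h2 : StmtGD2) (hFIB : StmtFIB) :
    ∃ C R₀ : ℝ, 1 ≤ C ∧ 20 ≤ R₀ ∧ ∀ (R : ℝ) (i : ℕ), R₀ ≤ R → 15 * R ≤ (2 : ℝ) ^ i →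
      Real.log ((2 : ℝ) ^ i) ≤ (R / 8) ^ ((1 : ℝ) / 2500) → ∀ S : Finset (ℤ × ℤ),
      (∀ e ∈ S, 0 < e.2 ∧ e.1 ^ 3 ≠ e.2 ^ 2 ∧ |(e.1 : ℝ) ^ 3 - (e.2 : ℝ) ^ 2| ≤ R ^ 4 ∧
        (2 : ℝ) ^ i ≤ √(e.1 : ℝ) / R ∧ √(e.1 : ℝ) / R < 2 * 2 ^ i) →
      (S.card : ℝ) ≤ C * R ^ ((3960 : ℝ) / 1000) := by
  classical
  obtain ⟨S₀, hS₀, hF⟩ := hFIB
  set d : ℝ := 1 / 1000 with hd
  have hd0 : 0 < d := by norm_num
  refine ⟨(2 * (1600 ^ d / d) + 1) * 10 ^ 39, max 1400 (8 * S₀), ?_, ?_, ?_⟩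
  · have : 0 ≤ 2 * ((1600 : ℝ) ^ d / d) := by positivity
    nlinarith
  · exact le_trans (by norm_num) (le_max_left _ _)
  intro R i hR hRi hlog S hS
  have hR1400 : 1400 ≤ R := (le_max_left _ _).trans hR
  have hR8 : 8 * S₀ ≤ R := (le_max_right _ _).trans hR
  have hR0 : 0 < R := by linarith
  have hR20 : 20 ≤ R := by linarith
  set V0 : ℝ := (2 : ℝ) ^ i with hV0
  have hV : 20801 ≤ V0 := by linarith
  have hV00 : 0 < V0 := by linarith
  -- sizes of the points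
  have hx : ∀ e ∈ S, (R * V0) ^ 2 ≤ (e.1 : ℝ) ∧ (e.1 : ℝ) ≤ 4 * (R * V0) ^ 2 ∧
      3 * R ^ 4 ≤ (e.1 : ℝ) := by
    intro e he
    obtain ⟨-, -, -, g1, g2⟩ := hS e he
    rw [le_div_iff₀ hR0] at g1
    rw [div_lt_iff₀ hR0] at g2
    have hs0 : 0 < √(e.1 : ℝ) := lt_of_lt_of_le (by positivity) g1
    have hx0 : (0 : ℝ) < e.1 := Real.sqrt_pos.mp hs0
    have hss : √(e.1 : ℝ) ^ 2 = e.1 := Real.sq_sqrt hx0.le
    have a1 : (R * V0) ^ 2 ≤ (e.1 : ℝ) := by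
      rw [← hss]
      have : R * V0 ≤ √(e.1 : ℝ) := by linarith
      gcongr
    refine ⟨a1, ?_, ?_⟩
    · rw [← hss]
      have : √(e.1 : ℝ) ≤ 2 * (R * V0) := by linarith
      calc √(e.1 : ℝ) ^ 2 ≤ (2 * (R * V0)) ^ 2 := by gcongr
        _ = 4 * (R * V0) ^ 2 := by ring
    · refine le_trans ?_ a1
      calc 3 * R ^ 4 ≤ (R * (15 * R)) ^ 2 := by
            have : 0 < R ^ 4 := by positivity
            nlinarith
        _ ≤ (R * V0) ^ 2 := by gcongr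
  have hdat : ∀ e ∈ S, ∃ (j : ℕ) (c0 c1 c2 c3 u v : ℤ),
      Dat R V0 (2 ^ j / 2) e.1 e.2 c0 c1 c2 c3 u v := by
    intro e he
    obtain ⟨g1, g2, g3, g4, g5⟩ := hS e he
    exact exists_dat hL h1 h2 R hR20 i (by linarith) e.1 e.2 g1 g2 g3 (hx e he).2.2 g4 g5
  choose! j c0 c1 c2 c3 u v hdat using hdat
  have hfam : ∀ m : ℕ, Fam R V0 (2 ^ m / 2) (S.filter (fun e => j e = m)) c0 c1 c2 c3 u v := by
    intro m
    refine ⟨hR20, hV, ?_, ?_, ?_, ?_, ?_, ?_⟩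
    · have : (1 : ℝ) ≤ 2 ^ m := one_le_pow₀ (by norm_num)
      linarith
    · intro e he
      obtain ⟨g1, g2⟩ := mem_filter.mp he
      rw [← g2]
      exact hdat e g1
    · exact fun e he => (hx e (mem_filter.mp he).1).1
    · exact fun e he => (hx e (mem_filter.mp he).1).2.1
    · exact fun e he => (hS e (mem_filter.mp he).1).1
    · exact fun e he => (hS e (mem_filter.mp he).1).2.2.1
  set J : ℕ := ⌊2 * ((1600 * R) ^ d / d)⌋₊ + 1 with hJ
  have hjb : ∀ e ∈ S, j e < J := by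
    intro e he
    have hb := (hfam (j e)).bds (mem_filter.mpr ⟨he, rfl⟩)
    have h3 : (2 : ℝ) ^ (j e) ≤ 1600 * R := by
      have h4 := hb.2.1
      have h5 : (1 : ℝ) ≤ 2 ^ (j e) := one_le_pow₀ (by norm_num)
      have h6 : (2 : ℝ) ^ (j e) ≤ ((2 : ℝ) ^ (j e)) ^ 3 := le_self_pow₀ h5 (by norm_num)
      have e1 : ((2 : ℝ) ^ (j e) / 2) ^ 3 = ((2 : ℝ) ^ (j e)) ^ 3 / 8 := by ring
      rw [e1] at h4
      linarith
    have h5 : (j e : ℝ) * Real.log 2 ≤ Real.log (1600 * R) := by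
      rw [← Real.log_pow]
      exact Real.log_le_log (by positivity) h3
    have h6 := Real.log_two_gt_d9
    have h7 : (j e : ℝ) ≤ 2 * Real.log (1600 * R) := by
      have : (0 : ℝ) ≤ j e := by positivity
      nlinarith
    have h8 := Real.log_le_rpow_div (x := 1600 * R) (by positivity) hd0
    have h9 : j e ≤ ⌊2 * ((1600 * R) ^ d / d)⌋₊ := Nat.le_floor (by linarith)
    omega
  have hJle : (J : ℝ) ≤ (2 * (1600 ^ d / d) + 1) * R ^ d := by
    rw [hJ]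
    push_cast
    have h1 := Nat.floor_le (by positivity : 0 ≤ 2 * ((1600 * R) ^ d / d))
    have h2 : 2 * ((1600 * R) ^ d / d) = 2 * (1600 ^ d / d) * R ^ d := by
      rw [Real.mul_rpow (by norm_num) hR0.le]; ring
    have h3 : 1 ≤ R ^ d := Real.one_le_rpow (by linarith) hd0.le
    rw [add_mul, ← h2]
    linarith
  have hcov : S ⊆ (range J).biUnion (fun m => S.filter (fun e => j e = m)) := by
    intro e he
    rw [mem_biUnion]
    exact ⟨j e, mem_range.mpr (hjb e he), mem_filter.mpr ⟨he, rfl⟩⟩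
  have hpi : ∀ m, ((S.filter (fun e => j e = m)).card : ℝ) ≤ 10 ^ 39 * R ^ ((3959 : ℝ) / 1000) :=
    fun m => shape S₀ hS₀ hF hR8 hRi hlog (hfam m)
  calc (S.card : ℝ) ≤ (((range J).biUnion (fun m => S.filter (fun e => j e = m))).card : ℝ) := by
        exact_mod_cast card_le_card hcov
    _ ≤ ∑ m ∈ range J, ((S.filter (fun e => j e = m)).card : ℝ) := by
        exact_mod_cast card_biUnion_le
    _ ≤ ∑ _m ∈ range J, (10 ^ 39 * R ^ ((3959 : ℝ) / 1000)) := sum_le_sum (fun m _ => hpi m)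
    _ = J * (10 ^ 39 * R ^ ((3959 : ℝ) / 1000)) := by
        rw [sum_const, card_range, nsmul_eq_mul]
    _ ≤ ((2 * (1600 ^ d / d) + 1) * R ^ d) * (10 ^ 39 * R ^ ((3959 : ℝ) / 1000)) := by
        gcongr
    _ = (2 * (1600 ^ d / d) + 1) * 10 ^ 39 * (R ^ d * R ^ ((3959 : ℝ) / 1000)) := by ring
    _ = _ := by
        rw [← Real.rpow_add hR0]
        congr 2
        rw [hd]; norm_num

end Pool.Agent.Zk16.P
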